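import Pool.Agent.Lib.MP_b4aa87_al.Main

/-!
# A finitely generated group of intermediate automorphic growth

The witness is the first Grigorchuk group, acting on the binary rooted tree.
-/

open Pool.Agent.Lib.MP_b4aa87_al

/-- There is a finitely generated group whose automorphic growth function is intermediate, for
every finite generating set. -/
theorem Pool.Agent.Results.MP_b4aa87_al.IntermediateAutGrowth.result :
    ∃ (G : Type) (_ : Group G), Group.FG G ∧
      ∀ S : Finset G, Subgroup.closure (S : Set G) = ⊤ → IsIntermediate (autGrowth (S : Set G)) :=
  ⟨Pool.Agent.Lib.MP_b4aa87_al.G, inferInstance, Gam_fg, main⟩
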